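import Pool.Agent.Helper96.BC.St

/-! Module C3 of project BC (MP_6090f9_nt): primes of degree one are algebra homomorphisms. -/

set_option autoImplicit false

namespace Pool.Agent.Helper83.BC

open NumberField IsDedekindDomain
open Pool.Agent.Helper96.BC Pool.Agent.Helper95.TT

section

variable {k K : Type} [Field k] [NumberField k] [Field K] [NumberField K] [Algebra k K]
variable {v : Pr k}

private theorem q_eq_card {F : Type} [Field F] [NumberField F] (w : Pr F) :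
    q w = Nat.card (𝓞 F ⧸ w.asIdeal) := rfl

private theorem inst_dom (v : Pr k) : IsDomain (𝓞 k ⧸ v.asIdeal) :=
  Ideal.Quotient.isDomain v.asIdeal

private theorem hom_surj (Φ : 𝓞 K →ₐ[𝓞 k] (𝓞 k ⧸ v.asIdeal)) (c : 𝓞 k ⧸ v.asIdeal) :
    ∃ a : 𝓞 k, Φ (algebraMap (𝓞 k) (𝓞 K) a) = c := by
  obtain ⟨a, rfl⟩ := Ideal.Quotient.mk_surjective c
  exact ⟨a, Φ.commutes a⟩

private theorem ker_comap (Φ : 𝓞 K →ₐ[𝓞 k] (𝓞 k ⧸ v.asIdeal)) :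
    (RingHom.ker Φ).comap (algebraMap (𝓞 k) (𝓞 K)) = v.asIdeal := by
  ext a
  rw [Ideal.mem_comap, RingHom.mem_ker, Φ.commutes]
  exact Ideal.Quotient.eq_zero_iff_mem

private theorem ker_prime (Φ : 𝓞 K →ₐ[𝓞 k] (𝓞 k ⧸ v.asIdeal)) : (RingHom.ker Φ).IsPrime := by
  have := inst_dom v
  exact RingHom.ker_isPrime _

private theorem ker_ne_bot (Φ : 𝓞 K →ₐ[𝓞 k] (𝓞 k ⧸ v.asIdeal)) : RingHom.ker Φ ≠ ⊥ := by
  intro h
  have h1 := ker_comap Φ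
  rw [h] at h1
  apply v.ne_bot
  rw [← h1]
  ext a
  rw [Ideal.mem_comap, Ideal.mem_bot, Ideal.mem_bot]
  exact map_eq_zero_iff _ (FaithfulSMul.algebraMap_injective (𝓞 k) (𝓞 K))

private noncomputable def toPr (Φ : 𝓞 K →ₐ[𝓞 k] (𝓞 k ⧸ v.asIdeal)) : Pr K :=
  ⟨RingHom.ker Φ, ker_prime Φ, ker_ne_bot Φ⟩

private theorem toPr_deg1 (Φ : 𝓞 K →ₐ[𝓞 k] (𝓞 k ⧸ v.asIdeal)) : Deg1 (toPr Φ) v := by
  refine ⟨ker_comap Φ, ?_⟩
  rw [q_eq_card, q_eq_card]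
  have hs : Function.Surjective (Φ : 𝓞 K →+* (𝓞 k ⧸ v.asIdeal)) := by
    intro c
    obtain ⟨a, ha⟩ := hom_surj Φ c
    exact ⟨_, ha⟩
  exact Nat.card_congr (RingHom.quotientKerEquivOfSurjective hs).toEquiv

private theorem toPr_inj {Φ Φ' : 𝓞 K →ₐ[𝓞 k] (𝓞 k ⧸ v.asIdeal)}
    (h : RingHom.ker Φ = RingHom.ker Φ') : Φ = Φ' := by
  ext x
  obtain ⟨a, ha⟩ := hom_surj Φ (Φ x)
  have h1 : x - algebraMap (𝓞 k) (𝓞 K) a ∈ RingHom.ker Φ := by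
    rw [RingHom.mem_ker, map_sub, ha, sub_self]
  rw [h, RingHom.mem_ker, map_sub, sub_eq_zero] at h1
  rw [h1, ← ha, Φ.commutes, Φ'.commutes]

private theorem exists_hom (w : Pr K) (hw : Deg1 w v) :
    ∃ Φ : 𝓞 K →ₐ[𝓞 k] (𝓞 k ⧸ v.asIdeal), RingHom.ker Φ = w.asIdeal := by
  obtain ⟨hc, hq⟩ := hw
  have hle : v.asIdeal ≤ w.asIdeal.comap (algebraMap (𝓞 k) (𝓞 K)) := hc.ge
  let g : (𝓞 k ⧸ v.asIdeal) →+* (𝓞 K ⧸ w.asIdeal) := Ideal.quotientMap w.asIdeal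
    (algebraMap (𝓞 k) (𝓞 K)) hle
  have gi : Function.Injective g := Ideal.quotientMap_injective' hc.le
  have : Finite (𝓞 K ⧸ w.asIdeal) := Ideal.finiteQuotientOfFreeOfNeBot _ w.ne_bot
  have : Finite (𝓞 k ⧸ v.asIdeal) := Ideal.finiteQuotientOfFreeOfNeBot _ v.ne_bot
  have gb : Function.Bijective g := by
    refine gi.bijective_of_nat_card_le ?_
    rw [← q_eq_card, ← q_eq_card, hq]
  let E : (𝓞 k ⧸ v.asIdeal) ≃+* (𝓞 K ⧸ w.asIdeal) := RingEquiv.ofBijective g gb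
  refine ⟨{ (E.symm : (𝓞 K ⧸ w.asIdeal) →+* (𝓞 k ⧸ v.asIdeal)).comp
      (Ideal.Quotient.mk w.asIdeal) with
    commutes' := ?_ }, ?_⟩
  · intro a
    change E.symm (Ideal.Quotient.mk w.asIdeal (algebraMap (𝓞 k) (𝓞 K) a)) =
      Ideal.Quotient.mk v.asIdeal a
    rw [RingEquiv.symm_apply_eq]
    rfl
  · ext x
    rw [RingHom.mem_ker]
    change E.symm (Ideal.Quotient.mk w.asIdeal x) = 0 ↔ _
    rw [map_eq_zero_iff E.symm E.symm.injective]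
    exact Ideal.Quotient.eq_zero_iff_mem

end

theorem hC3 : StC3 := by
  intro k K _ _ _ _ _ v
  let Ψ : (𝓞 K →ₐ[𝓞 k] (𝓞 k ⧸ v.asIdeal)) → {w : Pr K // Deg1 w v} :=
    fun Φ => ⟨toPr Φ, toPr_deg1 Φ⟩
  have hΨ : Function.Bijective Ψ := by
    constructor
    · intro Φ Φ' h
      apply toPr_inj
      have h1 : (Ψ Φ).1.asIdeal = (Ψ Φ').1.asIdeal := by rw [h]
      exact h1
    · rintro ⟨w, hw⟩
      obtain ⟨Φ, hΦ⟩ := exists_hom w hw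
      refine ⟨Φ, Subtype.ext ?_⟩
      apply HeightOneSpectrum.ext
      exact hΦ
  refine ⟨(Equiv.ofBijective Ψ hΨ).symm, fun w => ?_⟩
  have h1 : Ψ ((Equiv.ofBijective Ψ hΨ).symm w) = w :=
    (Equiv.ofBijective Ψ hΨ).apply_symm_apply w
  conv_rhs => rw [← h1]
  rfl

end Pool.Agent.Helper83.BC
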