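import Pool.Agent.Helper96.BC.St

/-! Module C4 of project BC (MP_6090f9_nt): pairs of primes of degree one in `K ⊗ K'`. -/

set_option autoImplicit false

namespace Pool.Agent.Helper83.BC

open NumberField IsDedekindDomain
open Pool.Agent.Helper96.BC Pool.Agent.Helper95.TT
open scoped TensorProduct

/-- descent of a homomorphism -/
private theorem exists_desc {A T B κ : Type} [CommRing A] [CommRing T] [CommRing B] [CommRing κ]
    [Algebra A T] [Algebra A B] [Algebra A κ] (μ : T →ₐ[A] B) (l : T →ₐ[A] κ) (c : A)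
    (u : κ) (hu : u * algebraMap A κ c = 1) (ha : ∀ z : B, ∃ t, μ t = c • z)
    (hb : ∀ t, μ t = 0 → l t = 0) : ∃ Φ : B →ₐ[A] κ, ∀ t, Φ (μ t) = l t := by
  have hb2 : ∀ t t', μ t = μ t' → l t = l t' := by
    intro t t' h
    have h1 : μ (t - t') = 0 := by rw [map_sub, h, sub_self]
    have h2 := hb _ h1
    rwa [map_sub, sub_eq_zero] at h2
  choose τ hτ using ha
  have hcomm : ∀ a : A, u * l (τ (algebraMap A B a)) = algebraMap A κ a := by
    intro a
    have h1 : μ (τ (algebraMap A B a)) = μ (algebraMap A T (c * a)) := by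
      rw [hτ, AlgHom.commutes, map_mul, Algebra.smul_def]
    rw [hb2 _ _ h1, AlgHom.commutes, map_mul, ← mul_assoc, hu, one_mul]
  refine ⟨{ toFun := fun z => u * l (τ z)
            map_one' := ?_
            map_mul' := ?_
            map_zero' := ?_
            map_add' := ?_
            commutes' := hcomm }, ?_⟩
  · have h1 := hcomm 1
    rwa [map_one, map_one] at h1
  · intro z z'
    have h1 : μ (τ z * τ z') = μ (c • τ (z * z')) := by
      rw [map_mul, hτ, hτ, map_smul, hτ, smul_mul_assoc, mul_smul_comm]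
    have h2 := hb2 _ _ h1
    rw [map_mul, map_smul, Algebra.smul_def] at h2
    calc u * l (τ (z * z')) = u * (u * algebraMap A κ c) * l (τ (z * z')) := by rw [hu, mul_one]
      _ = u * u * (algebraMap A κ c * l (τ (z * z'))) := by ring
      _ = u * l (τ z) * (u * l (τ z')) := by rw [← h2]; ring
  · have h1 := hcomm 0
    rwa [map_zero, map_zero] at h1
  · intro z z'
    have h1 : μ (τ (z + z')) = μ (τ z + τ z') := by
      rw [map_add, hτ, hτ, hτ, smul_add]
    change u * l (τ (z + z')) = u * l (τ z) + u * l (τ z')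
    rw [hb2 _ _ h1, map_add, mul_add]
  · intro t
    change u * l (τ (μ t)) = l t
    have h1 : μ (τ (μ t)) = μ (c • t) := by rw [hτ, map_smul]
    rw [hb2 _ _ h1, map_smul, Algebra.smul_def, ← mul_assoc, hu, one_mul]

/-- common denominators -/
private theorem exists_den {A k V N ι : Type} [CommRing A] [IsDomain A] [Field k] [Algebra A k]
    [IsFractionRing A k] [AddCommGroup V] [Module k V] [Module A V] [IsScalarTower A k V]
    [AddCommGroup N] [Module A N] [Module.Finite A N] [Fintype ι] (b : Module.Basis ι k V)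
    (f : N →ₗ[A] V) :
    ∃ c : A, c ≠ 0 ∧ ∀ x : N, ∃ a : ι → A, c • f x = ∑ i, algebraMap A k (a i) • b i := by
  obtain ⟨s, hs⟩ := (Module.Finite.fg_top : (⊤ : Submodule A N).FG)
  obtain ⟨c, hc⟩ := IsLocalization.exist_integer_multiples_of_finite (nonZeroDivisors A)
    (fun p : s × ι => b.repr (f p.1) p.2)
  refine ⟨c, nonZeroDivisors.ne_zero c.2, ?_⟩
  intro x
  have hx : x ∈ Submodule.span A (s : Set N) := by rw [hs]; exact Submodule.mem_top
  induction hx using Submodule.span_induction with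
  | mem x hx =>
    choose a ha using fun i => hc (⟨x, hx⟩, i)
    refine ⟨a, ?_⟩
    conv_lhs => rw [← b.sum_repr (f x)]
    rw [Finset.smul_sum]
    refine Finset.sum_congr rfl fun i _ => ?_
    rw [ha i, smul_assoc]
  | zero => exact ⟨0, by simp⟩
  | add x y _ _ hx hy =>
    obtain ⟨a, ha⟩ := hx
    obtain ⟨a', ha'⟩ := hy
    refine ⟨a + a', ?_⟩
    rw [map_add, smul_add, ha, ha', ← Finset.sum_add_distrib]
    refine Finset.sum_congr rfl fun i _ => ?_
    rw [Pi.add_apply, map_add, add_smul]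
  | smul r x _ hx =>
    obtain ⟨a, ha⟩ := hx
    refine ⟨fun i => r * a i, ?_⟩
    rw [map_smul, smul_comm, ha, Finset.smul_sum]
    refine Finset.sum_congr rfl fun i _ => ?_
    rw [map_mul, mul_smul]
    exact (algebraMap_smul k r _).symm

section

variable {k K : Type} [Field k] [NumberField k] [Field K] [NumberField K] [Algebra k K]

/-- an integral basis over `k`, and a common denominator -/
private theorem exists_basis (k K : Type) [Field k] [NumberField k] [Field K] [NumberField K]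
    [Algebra k K] :
    ∃ (ι : Type) (_ : Fintype ι) (b : Module.Basis ι k K) (β : ι → 𝓞 K) (c : 𝓞 k),
      (∀ i, b i = algebraMap (𝓞 K) K (β i)) ∧ c ≠ 0 ∧
      ∀ x : 𝓞 K, ∃ a : ι → 𝓞 k, c • x = ∑ i, a i • β i := by
  obtain ⟨s, b, hb⟩ := FiniteDimensional.exists_is_basis_integral (𝓞 k) k K
  have h1 : ∀ i : s, ∃ y : 𝓞 K, algebraMap (𝓞 K) K y = b i := fun i =>
    IsIntegralClosure.isIntegral_iff.mp (hb i)
  choose β hβ using h1
  obtain ⟨c, hc0, hc⟩ := exists_den (A := 𝓞 k) b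
    (IsScalarTower.toAlgHom (𝓞 k) (𝓞 K) K).toLinearMap
  refine ⟨s, inferInstance, b, β, c, fun i => (hβ i).symm, hc0, ?_⟩
  intro x
  obtain ⟨a, ha⟩ := hc x
  refine ⟨a, ?_⟩
  apply IsFractionRing.injective (𝓞 K) K
  have h2 : algebraMap (𝓞 K) K (c • x) = c • algebraMap (𝓞 K) K x := by
    rw [Algebra.smul_def, map_mul, ← IsScalarTower.algebraMap_apply, ← Algebra.smul_def]
  rw [h2]
  refine ha.trans ?_
  rw [map_sum]
  refine Finset.sum_congr rfl fun i _ => ?_
  rw [algebraMap_smul, ← hβ i, Algebra.smul_def, Algebra.smul_def, map_mul,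
    ← IsScalarTower.algebraMap_apply]

end

/-- the two facts about `𝓞 K ⊗ 𝓞 K' → 𝓞 M` -/
private theorem key (k K K' M : Type) [Field k] [NumberField k] [Field K] [NumberField K]
    [Field K'] [NumberField K'] [Field M] [NumberField M] [Algebra k K] [Algebra k K'] [Algebra k M]
    [Algebra K M] [Algebra K' M] [IsScalarTower k K M] [IsScalarTower k K' M]
    (h : IsTP k K K' M) :
    ∃ c c' : 𝓞 k, c ≠ 0 ∧ c' ≠ 0 ∧
      (∀ z : 𝓞 M, ∃ t : 𝓞 K ⊗[𝓞 k] 𝓞 K', Algebra.TensorProduct.productMap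
        (IsScalarTower.toAlgHom (𝓞 k) (𝓞 K) (𝓞 M)) (IsScalarTower.toAlgHom (𝓞 k) (𝓞 K') (𝓞 M)) t =
          c • z) ∧
      (∀ t : 𝓞 K ⊗[𝓞 k] 𝓞 K', Algebra.TensorProduct.productMap
        (IsScalarTower.toAlgHom (𝓞 k) (𝓞 K) (𝓞 M)) (IsScalarTower.toAlgHom (𝓞 k) (𝓞 K') (𝓞 M)) t =
          0 → c' • t = 0) := by
  obtain ⟨e, he⟩ := h
  obtain ⟨ι, _, b, β, cK, hβ, hcK, hK⟩ := exists_basis k K
  obtain ⟨ι', _, b', β', cK', hβ', hcK', hK'⟩ := exists_basis k K'
  -- the linear equivalence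
  have hlin : ∀ (a : k) (t : K ⊗[k] K'), e (a • t) = a • e t := by
    intro a t
    induction t using TensorProduct.induction_on with
    | zero => simp
    | tmul x y =>
      rw [TensorProduct.smul_tmul', he, he, Algebra.smul_def a x, map_mul,
        ← IsScalarTower.algebraMap_apply k K M, Algebra.smul_def, mul_assoc]
    | add x y hx hy => rw [smul_add, map_add, map_add, smul_add, hx, hy]
  let el : (K ⊗[k] K') ≃ₗ[k] M := e.toAddEquiv.toLinearEquiv hlin
  let B : Module.Basis (ι × ι') k M := (b.tensorProduct b').map el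
  have hB : ∀ p, B p = algebraMap (𝓞 M) M (algebraMap (𝓞 K) (𝓞 M) (β p.1) *
      algebraMap (𝓞 K') (𝓞 M) (β' p.2)) := by
    intro p
    have h1 : B p = e (b p.1 ⊗ₜ[k] b' p.2) := by
      change el ((b.tensorProduct b') p) = _
      rw [Module.Basis.tensorProduct_apply]
      rfl
    rw [h1, he, map_mul, hβ, hβ', ← IsScalarTower.algebraMap_apply (𝓞 K) (𝓞 M) M,
      ← IsScalarTower.algebraMap_apply (𝓞 K') (𝓞 M) M,
      IsScalarTower.algebraMap_apply (𝓞 K) K M, IsScalarTower.algebraMap_apply (𝓞 K') K' M]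
  obtain ⟨cM, hcM, hM⟩ := exists_den (A := 𝓞 k) B
    (IsScalarTower.toAlgHom (𝓞 k) (𝓞 M) M).toLinearMap
  set μ : 𝓞 K ⊗[𝓞 k] 𝓞 K' →ₐ[𝓞 k] 𝓞 M := Algebra.TensorProduct.productMap
        (IsScalarTower.toAlgHom (𝓞 k) (𝓞 K) (𝓞 M)) (IsScalarTower.toAlgHom (𝓞 k) (𝓞 K') (𝓞 M))
    with hμ
  have hμt : ∀ x y, μ (x ⊗ₜ y) = algebraMap (𝓞 K) (𝓞 M) x * algebraMap (𝓞 K') (𝓞 M) y := by
    intro x y
    rw [hμ, Algebra.TensorProduct.productMap_apply_tmul]
    rfl
  -- the value of `μ` on combinations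
  have hμs : ∀ a : ι × ι' → 𝓞 k, algebraMap (𝓞 M) M (μ (∑ p, a p • (β p.1 ⊗ₜ[𝓞 k] β' p.2))) =
      ∑ p, algebraMap (𝓞 k) k (a p) • B p := by
    intro a
    rw [map_sum, map_sum]
    refine Finset.sum_congr rfl fun p _ => ?_
    rw [map_smul, hμt, hB, Algebra.smul_def (a p), map_mul,
      ← IsScalarTower.algebraMap_apply (𝓞 k) (𝓞 M) M, Algebra.smul_def (algebraMap (𝓞 k) k (a p)),
      ← IsScalarTower.algebraMap_apply (𝓞 k) k M]
  refine ⟨cM, cK * cK', hcM, mul_ne_zero hcK hcK', ?_, ?_⟩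
  · intro z
    obtain ⟨a, ha⟩ := hM z
    refine ⟨∑ p, a p • (β p.1 ⊗ₜ[𝓞 k] β' p.2), ?_⟩
    apply IsFractionRing.injective (𝓞 M) M
    rw [hμs, ← ha]
    change cM • algebraMap (𝓞 M) M z = algebraMap (𝓞 M) M (cM • z)
    rw [Algebra.smul_def, Algebra.smul_def, map_mul, ← IsScalarTower.algebraMap_apply]
  · have hT : ∀ t : 𝓞 K ⊗[𝓞 k] 𝓞 K', ∃ a : ι × ι' → 𝓞 k,
        (cK * cK') • t = ∑ p, a p • (β p.1 ⊗ₜ[𝓞 k] β' p.2) := by
      intro t
      induction t using TensorProduct.induction_on with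
      | zero => exact ⟨0, by simp⟩
      | tmul x y =>
        obtain ⟨a, ha⟩ := hK x
        obtain ⟨a', ha'⟩ := hK' y
        refine ⟨fun p => a p.1 * a' p.2, ?_⟩
        rw [← TensorProduct.smul_tmul_smul, ha, ha', TensorProduct.sum_tmul]
        simp_rw [TensorProduct.tmul_sum]
        rw [Fintype.sum_prod_type]
        refine Finset.sum_congr rfl fun i _ => Finset.sum_congr rfl fun j _ => ?_
        rw [TensorProduct.smul_tmul_smul]
      | add x y hx hy =>
        obtain ⟨a, ha⟩ := hx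
        obtain ⟨a', ha'⟩ := hy
        refine ⟨a + a', ?_⟩
        rw [smul_add, ha, ha', ← Finset.sum_add_distrib]
        refine Finset.sum_congr rfl fun p _ => ?_
        rw [Pi.add_apply, add_smul]
    intro t ht
    obtain ⟨a, ha⟩ := hT t
    have h1 : ∑ p, algebraMap (𝓞 k) k (a p) • B p = 0 := by
      rw [← hμs, ← ha, map_smul, ht, smul_zero, map_zero]
    have h2 := Fintype.linearIndependent_iff.mp B.linearIndependent _ h1
    have h3 : ∀ p, a p = 0 := fun p => by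
      apply IsFractionRing.injective (𝓞 k) k
      rw [h2 p, map_zero]
    rw [ha]
    exact Finset.sum_eq_zero fun p _ => by rw [h3 p, zero_smul]

/-- the bijection for the homomorphisms -/
private theorem hom_bij (k K K' M : Type) [Field k] [NumberField k] [Field K] [NumberField K]
    [Field K'] [NumberField K'] [Field M] [NumberField M] [Algebra k K] [Algebra k K'] [Algebra k M]
    [Algebra K M] [Algebra K' M] [IsScalarTower k K M] [IsScalarTower k K' M]
    (c c' : 𝓞 k)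
    (ha : ∀ z : 𝓞 M, ∃ t : 𝓞 K ⊗[𝓞 k] 𝓞 K', Algebra.TensorProduct.productMap
        (IsScalarTower.toAlgHom (𝓞 k) (𝓞 K) (𝓞 M)) (IsScalarTower.toAlgHom (𝓞 k) (𝓞 K') (𝓞 M)) t =
          c • z)
    (hb : ∀ t : 𝓞 K ⊗[𝓞 k] 𝓞 K', Algebra.TensorProduct.productMap
        (IsScalarTower.toAlgHom (𝓞 k) (𝓞 K) (𝓞 M)) (IsScalarTower.toAlgHom (𝓞 k) (𝓞 K') (𝓞 M)) t =
          0 → c' • t = 0)
    (v : Pr k) (hc : c ∉ v.asIdeal) (hc' : c' ∉ v.asIdeal) :
    Function.Bijective (fun Φ : 𝓞 M →ₐ[𝓞 k] (𝓞 k ⧸ v.asIdeal) =>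
      ((Φ.comp (IsScalarTower.toAlgHom (𝓞 k) (𝓞 K) (𝓞 M)),
        Φ.comp (IsScalarTower.toAlgHom (𝓞 k) (𝓞 K') (𝓞 M))) :
        (𝓞 K →ₐ[𝓞 k] (𝓞 k ⧸ v.asIdeal)) × (𝓞 K' →ₐ[𝓞 k] (𝓞 k ⧸ v.asIdeal)))) := by
  have hinv : ∀ d : 𝓞 k, d ∉ v.asIdeal →
      ∃ u : 𝓞 k ⧸ v.asIdeal, u * algebraMap (𝓞 k) (𝓞 k ⧸ v.asIdeal) d = 1 := by
    intro d hd
    have hmax : v.asIdeal.IsMaximal := v.isPrime.isMaximal v.ne_bot
    obtain ⟨u, hu⟩ := Ideal.Quotient.exists_inv (I := v.asIdeal)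
      (a := algebraMap (𝓞 k) (𝓞 k ⧸ v.asIdeal) d)
      (fun h0 => hd (Ideal.Quotient.eq_zero_iff_mem.mp h0))
    exact ⟨u, by rw [mul_comm]; exact hu⟩
  obtain ⟨u, hu⟩ := hinv c hc
  obtain ⟨u', hu'⟩ := hinv c' hc'
  constructor
  · intro Φ Φ' hΦ
    have h1 := congrArg Prod.fst hΦ
    have h2 := congrArg Prod.snd hΦ
    simp only at h1 h2
    have h3 : ∀ t : 𝓞 K ⊗[𝓞 k] 𝓞 K', Φ (Algebra.TensorProduct.productMap
        (IsScalarTower.toAlgHom (𝓞 k) (𝓞 K) (𝓞 M))
          (IsScalarTower.toAlgHom (𝓞 k) (𝓞 K') (𝓞 M)) t) =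
        Φ' (Algebra.TensorProduct.productMap
        (IsScalarTower.toAlgHom (𝓞 k) (𝓞 K) (𝓞 M))
          (IsScalarTower.toAlgHom (𝓞 k) (𝓞 K') (𝓞 M)) t) := by
      intro t
      induction t using TensorProduct.induction_on with
      | zero => simp
      | tmul x y =>
        rw [Algebra.TensorProduct.productMap_apply_tmul, map_mul, map_mul]
        have e1 := DFunLike.congr_fun h1 x
        have e2 := DFunLike.congr_fun h2 y
        simp only [AlgHom.comp_apply] at e1 e2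
        rw [e1, e2]
      | add x y hx hy => rw [map_add, map_add, map_add, hx, hy]
    ext z
    obtain ⟨t, ht⟩ := ha z
    have h4 := h3 t
    rw [ht, map_smul, map_smul, Algebra.smul_def, Algebra.smul_def] at h4
    calc Φ z = u * algebraMap (𝓞 k) (𝓞 k ⧸ v.asIdeal) c * Φ z := by rw [hu, one_mul]
      _ = u * (algebraMap (𝓞 k) (𝓞 k ⧸ v.asIdeal) c * Φ' z) := by rw [← h4, mul_assoc]
      _ = Φ' z := by rw [← mul_assoc, hu, one_mul]
  · rintro ⟨φ, φ'⟩
    obtain ⟨Φ, hΦ⟩ := exists_desc (Algebra.TensorProduct.productMap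
        (IsScalarTower.toAlgHom (𝓞 k) (𝓞 K) (𝓞 M)) (IsScalarTower.toAlgHom (𝓞 k) (𝓞 K') (𝓞 M)))
      (Algebra.TensorProduct.productMap φ φ') c u hu ha (by
        intro t ht
        have h1 := hb t ht
        have h2 : c' • (Algebra.TensorProduct.productMap φ φ') t = 0 := by
          rw [← map_smul, h1, map_zero]
        rw [Algebra.smul_def] at h2
        calc (Algebra.TensorProduct.productMap φ φ') t
            = u' * (algebraMap (𝓞 k) (𝓞 k ⧸ v.asIdeal) c' *
              (Algebra.TensorProduct.productMap φ φ') t) := by rw [← mul_assoc, hu', one_mul]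
          _ = 0 := by rw [h2, mul_zero])
    refine ⟨Φ, Prod.ext ?_ ?_⟩
    · ext x
      have h1 := hΦ (x ⊗ₜ 1)
      rw [Algebra.TensorProduct.productMap_apply_tmul,
        Algebra.TensorProduct.productMap_apply_tmul, map_one, map_one, mul_one, mul_one] at h1
      exact h1
    · ext y
      have h1 := hΦ (1 ⊗ₜ y)
      rw [Algebra.TensorProduct.productMap_apply_tmul,
        Algebra.TensorProduct.productMap_apply_tmul, map_one, map_one, one_mul, one_mul] at h1
      exact h1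

theorem hC4 : StC3 → StC4 := by
  intro hC3 k K K' M _ _ _ _ _ _ _ _ _ _ _ _ _ _ _ h
  obtain ⟨c, c', hc0, hc0', ha, hb⟩ := key k K K' M h
  have hne : Ideal.span {c * c'} ≠ 0 := by
    rw [Ideal.zero_eq_bot, Ne, Ideal.span_singleton_eq_bot]
    exact mul_ne_zero hc0 hc0'
  refine (Ideal.finite_factors hne).subset ?_
  intro v hv
  rw [Set.mem_setOf_eq, Ideal.dvd_span_singleton]
  by_contra hcc
  apply hv
  have hc : c ∉ v.asIdeal := fun h1 => hcc (v.asIdeal.mul_mem_right c' h1)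
  have hc' : c' ∉ v.asIdeal := fun h1 => hcc (v.asIdeal.mul_mem_left c h1)
  have hbij := hom_bij k K K' M c c' ha hb v hc hc'
  obtain ⟨eM, heM⟩ := hC3 k M v
  obtain ⟨eK, heK⟩ := hC3 k K v
  obtain ⟨eK', heK'⟩ := hC3 k K' v
  refine ⟨(eM.trans (Equiv.ofBijective _ hbij)).trans (eK.symm.prodCongr eK'.symm), ?_⟩
  intro u
  constructor
  · change u.1.asIdeal.comap (algebraMap (𝓞 K) (𝓞 M)) = _
    have h1 := heK (eK.symm ((eM u).comp (IsScalarTower.toAlgHom (𝓞 k) (𝓞 K) (𝓞 M))))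
    rw [Equiv.apply_symm_apply] at h1
    change _ = (eK.symm ((eM u).comp (IsScalarTower.toAlgHom (𝓞 k) (𝓞 K) (𝓞 M)))).1.asIdeal
    rw [← h1, ← heM u]
    ext x
    rw [Ideal.mem_comap, RingHom.mem_ker, RingHom.mem_ker]
    rfl
  · change u.1.asIdeal.comap (algebraMap (𝓞 K') (𝓞 M)) = _
    have h1 := heK' (eK'.symm ((eM u).comp (IsScalarTower.toAlgHom (𝓞 k) (𝓞 K') (𝓞 M))))
    rw [Equiv.apply_symm_apply] at h1
    change _ = (eK'.symm ((eM u).comp (IsScalarTower.toAlgHom (𝓞 k) (𝓞 K') (𝓞 M)))).1.asIdeal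
    rw [← h1, ← heM u]
    ext x
    rw [Ideal.mem_comap, RingHom.mem_ker, RingHom.mem_ker]
    rfl

end Pool.Agent.Helper83.BC
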